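import Mathlib

set_option autoImplicit false
set_option linter.unusedSectionVars false

/-!
# Weakening the hypotheses for Drazin invertible completions of triangular operator matrices

Q1 (no closedness for `B`) fails, Q2 (no closedness for `A`, but (E)) holds.
-/

namespace Pool.Agent.Results.MP_632fda_an.DrazinCompletions

open Finset
open scoped ENNReal

/-! ### Definitions -/

section Defs

variable {V : Type*} [AddCommGroup V] [Module ℂ V]

/-- the ascent `asc T` -/
noncomputable def asc (T : V →ₗ[ℂ] V) : ℕ∞ :=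
  ⨅ (k : ℕ) (_ : LinearMap.ker (T ^ (k + 1)) = LinearMap.ker (T ^ k)), (k : ℕ∞)

/-- the descent `dsc T` -/
noncomputable def dsc (T : V →ₗ[ℂ] V) : ℕ∞ :=
  ⨅ (k : ℕ) (_ : LinearMap.range (T ^ (k + 1)) = LinearMap.range (T ^ k)), (k : ℕ∞)

/-- Drazin invertible: finite ascent and descent -/
def Drazin (T : V →ₗ[ℂ] V) : Prop := asc T < ⊤ ∧ dsc T < ⊤

/-- the dimension, as a natural number or infinity -/
noncomputable def dim (N : Submodule ℂ V) : ℕ∞ := Cardinal.toENat (Module.rank ℂ N)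

variable {H K : Type*} [NormedAddCommGroup H] [InnerProductSpace ℂ H]
  [NormedAddCommGroup K] [InnerProductSpace ℂ K]

/-- left Drazin invertible: `asc T < ∞` and `R(T ^ (asc T + 1))` is closed -/
def LeftDrazin (T : H →L[ℂ] H) : Prop :=
  asc (T : H →ₗ[ℂ] H) < ⊤ ∧
    IsClosed (LinearMap.range ((T : H →ₗ[ℂ] H) ^ ((asc (T : H →ₗ[ℂ] H)).toNat + 1)) : Set H)

/-- right Drazin invertible: `dsc T < ∞` and `R(T ^ (dsc T))` is closed -/
def RightDrazin (T : H →L[ℂ] H) : Prop :=
  dsc (T : H →ₗ[ℂ] H) < ⊤ ∧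
    IsClosed (LinearMap.range ((T : H →ₗ[ℂ] H) ^ (dsc (T : H →ₗ[ℂ] H)).toNat) : Set H)

/-- condition (iii): `d(A - λ) = n(B - λ)` for all small `λ ≠ 0` -/
def CondIII (A : H →L[ℂ] H) (B : K →L[ℂ] K) : Prop :=
  ∃ δ : ℝ, 0 < δ ∧ ∀ μ : ℂ, 0 < ‖μ‖ → ‖μ‖ < δ →
    dim (LinearMap.range ((A - μ • ContinuousLinearMap.id ℂ H : H →L[ℂ] H) : H →ₗ[ℂ] H))ᗮ =
      dim (LinearMap.ker ((B - μ • ContinuousLinearMap.id ℂ K : K →L[ℂ] K) : K →ₗ[ℂ] K))

/-- `𝒮 = R(A) + N(A ^ p)` -/
noncomputable def spS (A : H →L[ℂ] H) (p : ℕ) : Submodule ℂ H :=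
  LinearMap.range (A : H →ₗ[ℂ] H) ⊔ LinearMap.ker ((A : H →ₗ[ℂ] H) ^ p)

/-- `𝒯`, the closure of `N(B) ∩ R(B ^ p)` -/
noncomputable def spT (B : K →L[ℂ] K) (p : ℕ) : Submodule ℂ K :=
  (LinearMap.ker (B : K →ₗ[ℂ] K) ⊓ LinearMap.range ((B : K →ₗ[ℂ] K) ^ p)).topologicalClosure

/-- condition (E) -/
def CondE (A : H →L[ℂ] H) (B : K →L[ℂ] K) (p : ℕ) : Prop :=
  IsClosed (spS A p : Set H) ∧ dim (spS A p)ᗮ = dim (spT B p)

/-- `C` is admissible: an invertible operator `J` from `𝒯` to the orthogonal complement of `𝒮`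
on `𝒯`, and zero on the orthogonal complement of `𝒯` -/
def Admissible (A : H →L[ℂ] H) (B : K →L[ℂ] K) (p : ℕ) (C : K →L[ℂ] H) : Prop :=
  ∃ J : spT B p ≃L[ℂ] (spS A p)ᗮ, (∀ y : spT B p, C y = J y) ∧ ∀ y ∈ (spT B p)ᗮ, C y = 0

/-- the operator matrix `M_C`, `(x, y) ↦ (A x + C y, B y)` -/
def opM (A : H →L[ℂ] H) (B : K →L[ℂ] K) (C : K →L[ℂ] H) : (H × K) →ₗ[ℂ] (H × K) :=
  (LinearMap.coprod (A : H →ₗ[ℂ] H) (C : K →ₗ[ℂ] H)).prod ((B : K →ₗ[ℂ] K) ∘ₗ LinearMap.snd ℂ H K)

end Defs

section Hyp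

variable {H K : Type*} [NormedAddCommGroup H] [InnerProductSpace ℂ H]
  [NormedAddCommGroup K] [InnerProductSpace ℂ K]

/-- `p ≥ max {1, asc A, dsc B}` -/
def GoodExponent (A : H →L[ℂ] H) (B : K →L[ℂ] K) (p : ℕ) : Prop :=
  1 ≤ p ∧ asc (A : H →ₗ[ℂ] H) ≤ p ∧ dsc (B : K →ₗ[ℂ] K) ≤ p

/-- the hypotheses of Q1 on `A`, `B`, `p`, `C` -/
def HypQ1 (A : H →L[ℂ] H) (B : K →L[ℂ] K) (p : ℕ) (C : K →L[ℂ] H) : Prop :=
  LeftDrazin A ∧ dsc (B : K →ₗ[ℂ] K) < ⊤ ∧ CondIII A B ∧ GoodExponent A B p ∧ CondE A B p ∧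
    Admissible A B p C

/-- the hypotheses of Q2 on `A`, `B`, `p`, `C` -/
def HypQ2 (A : H →L[ℂ] H) (B : K →L[ℂ] K) (p : ℕ) (C : K →L[ℂ] H) : Prop :=
  asc (A : H →ₗ[ℂ] H) < ⊤ ∧ RightDrazin B ∧ CondIII A B ∧ GoodExponent A B p ∧ CondE A B p ∧
    Admissible A B p C

variable (H K) in
/-- Q1 fails on `H`, `K` -/
def FailsQ1 : Prop :=
  (TopologicalSpace.SeparableSpace H ∧ ¬ FiniteDimensional ℂ H) ∧
  (TopologicalSpace.SeparableSpace K ∧ ¬ FiniteDimensional ℂ K) ∧
    ∃ (A : H →L[ℂ] H) (B : K →L[ℂ] K) (C : K →L[ℂ] H) (p : ℕ), HypQ1 A B p C ∧ ¬ Drazin (opM A B C)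

variable (H K) in
/-- Q2 holds on `H`, `K` -/
def HoldsQ2 : Prop :=
  ∀ (A : H →L[ℂ] H) (B : K →L[ℂ] K) (C : K →L[ℂ] H) (p : ℕ), HypQ2 A B p C → Drazin (opM A B C)

end Hyp

/-! ### Ascent and descent -/

section Asc

variable {V : Type*} [AddCommGroup V] [Module ℂ V]

theorem ker_stable (T : V →ₗ[ℂ] V) (k : ℕ)
    (h : LinearMap.ker (T ^ (k + 1)) = LinearMap.ker (T ^ k)) (m : ℕ) (hm : k ≤ m) :
    LinearMap.ker (T ^ (m + 1)) = LinearMap.ker (T ^ m) := by
  apply le_antisymm
  · intro x hx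
    rw [LinearMap.mem_ker] at hx ⊢
    obtain ⟨n, rfl⟩ := Nat.exists_eq_add_of_le hm
    have h1 : (T ^ n) x ∈ LinearMap.ker (T ^ (k + 1)) := by
      rw [LinearMap.mem_ker, ← Module.End.mul_apply, ← pow_add]
      rw [show k + 1 + n = k + n + 1 by ring]
      exact hx
    rw [h, LinearMap.mem_ker, ← Module.End.mul_apply, ← pow_add] at h1
    exact h1
  · intro x hx
    rw [LinearMap.mem_ker] at hx ⊢
    rw [pow_succ', Module.End.mul_apply, hx, map_zero]

theorem range_stable (T : V →ₗ[ℂ] V) (k : ℕ)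
    (h : LinearMap.range (T ^ (k + 1)) = LinearMap.range (T ^ k)) (m : ℕ) (hm : k ≤ m) :
    LinearMap.range (T ^ m) = LinearMap.range (T ^ k) := by
  induction m, hm using Nat.le_induction with
  | base => rfl
  | succ m hm ih =>
    apply le_antisymm
    · rintro _ ⟨x, rfl⟩
      rw [← h]
      obtain ⟨n, rfl⟩ := Nat.exists_eq_add_of_le hm
      refine ⟨(T ^ n) x, ?_⟩
      rw [← Module.End.mul_apply, ← pow_add]
      congr 2
      ring
    · rw [← h]
      rintro _ ⟨x, rfl⟩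
      have h1 : (T ^ k) x ∈ LinearMap.range (T ^ m) := by
        rw [ih]
        exact ⟨x, rfl⟩
      obtain ⟨y, hy⟩ := h1
      refine ⟨y, ?_⟩
      rw [pow_succ', Module.End.mul_apply, hy, ← Module.End.mul_apply, ← pow_succ']

theorem asc_le_iff (T : V →ₗ[ℂ] V) (p : ℕ) :
    asc T ≤ p ↔ LinearMap.ker (T ^ (p + 1)) = LinearMap.ker (T ^ p) := by
  constructor
  · intro h
    by_contra hcon
    have h1 : ((p + 1 : ℕ) : ℕ∞) ≤ asc T := by
      apply le_iInf₂
      intro k hk
      by_contra hlt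
      rw [not_le] at hlt
      have : k < p + 1 := by exact_mod_cast hlt
      exact hcon (ker_stable T k hk p (by omega))
    have h2 := h1.trans h
    have h3 : p + 1 ≤ p := by exact_mod_cast h2
    omega
  · intro h
    exact iInf₂_le p h

theorem dsc_le_iff (T : V →ₗ[ℂ] V) (p : ℕ) :
    dsc T ≤ p ↔ LinearMap.range (T ^ (p + 1)) = LinearMap.range (T ^ p) := by
  constructor
  · intro h
    by_contra hcon
    have h1 : ((p + 1 : ℕ) : ℕ∞) ≤ dsc T := by
      apply le_iInf₂
      intro k hk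
      by_contra hlt
      rw [not_le] at hlt
      have h2 : k < p + 1 := by exact_mod_cast hlt
      apply hcon
      rw [range_stable T k hk (p + 1) (by omega), range_stable T k hk p (by omega)]
    have h2 := h1.trans h
    have h3 : p + 1 ≤ p := by exact_mod_cast h2
    omega
  · intro h
    exact iInf₂_le p h

theorem exists_of_asc_lt_top (T : V →ₗ[ℂ] V) (h : asc T < ⊤) : ∃ p : ℕ, asc T ≤ p := by
  obtain ⟨n, hn⟩ := ENat.ne_top_iff_exists.mp h.ne
  exact ⟨n, hn.symm.le⟩

end Asc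

/-! ### Q2 -/

section Q2

variable {H K : Type*} [NormedAddCommGroup H] [InnerProductSpace ℂ H] [CompleteSpace H]
  [NormedAddCommGroup K] [InnerProductSpace ℂ K] [CompleteSpace K]
  (A : H →L[ℂ] H) (B : K →L[ℂ] K) (C : K →L[ℂ] H) (p : ℕ)

theorem opM_apply (x : H) (y : K) : opM A B C (x, y) = (A x + C y, B y) := rfl

theorem opM_pow_snd (k : ℕ) (z : H × K) :
    ((opM A B C ^ k) z).2 = ((B : K →ₗ[ℂ] K) ^ k) z.2 := by
  induction k with
  | zero => rfl
  | succ k ih =>
    rw [pow_succ', Module.End.mul_apply, pow_succ', Module.End.mul_apply, ← ih]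
    rfl

theorem opM_pow_fst (k : ℕ) (z : H × K) :
    ((opM A B C ^ (k + 1)) z).1 = A ((opM A B C ^ k) z).1 + C (((B : K →ₗ[ℂ] K) ^ k) z.2) := by
  rw [pow_succ', Module.End.mul_apply, ← opM_pow_snd A B C]
  rfl

theorem opM_pow_fst_of_zero (k : ℕ) (z : H × K)
    (h : ∀ i < k, C (((B : K →ₗ[ℂ] K) ^ i) z.2) = 0) :
    ((opM A B C ^ k) z).1 = ((A : H →ₗ[ℂ] H) ^ k) z.1 := by
  induction k with
  | zero => rfl
  | succ k ih =>
    rw [opM_pow_fst, ih (fun i hi => h i (by omega)), h k (by omega), add_zero, pow_succ',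
      Module.End.mul_apply]
    rfl

variable {A B C p}

theorem spT_le_ker : spT B p ≤ LinearMap.ker (B : K →ₗ[ℂ] K) := by
  apply Submodule.topologicalClosure_minimal
  · exact inf_le_left
  · exact B.isClosed_ker

/-- an element of the range of `C` lying in `𝒮` vanishes -/
theorem C_mem_orth (hC : Admissible A B p C) (y : K) : C y ∈ (spS A p)ᗮ := by
  obtain ⟨J, hJ, h0⟩ := hC
  have : CompleteSpace (spT B p) := (Submodule.isClosed_topologicalClosure _).completeSpace_coe
  obtain ⟨t, ht, u, hu, rfl⟩ := (spT B p).exists_add_mem_mem_orthogonal y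
  rw [map_add, h0 u hu, add_zero]
  rw [hJ ⟨t, ht⟩]
  exact (J ⟨t, ht⟩).2

theorem C_eq_zero (hC : Admissible A B p C) (y : K) (h : C y ∈ spS A p) : C y = 0 := by
  have h1 := C_mem_orth hC y
  have h2 : C y ∈ spS A p ⊓ (spS A p)ᗮ := ⟨h, h1⟩
  rw [Submodule.inf_orthogonal_eq_bot] at h2
  exact h2

theorem ker_pow_le (k : ℕ) (hk : k ≤ p) :
    LinearMap.ker ((A : H →ₗ[ℂ] H) ^ k) ≤ spS A p := by
  refine le_trans ?_ (le_sup_right (a := LinearMap.range (A : H →ₗ[ℂ] H)))
  intro x hx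
  rw [LinearMap.mem_ker] at hx ⊢
  obtain ⟨n, rfl⟩ := Nat.exists_eq_add_of_le hk
  rw [add_comm, pow_add, Module.End.mul_apply, hx, map_zero]

theorem asc_opM (hA : asc (A : H →ₗ[ℂ] H) ≤ p) (hC : Admissible A B p C) :
    asc (opM A B C) ≤ p := by
  rw [asc_le_iff] at hA ⊢
  apply le_antisymm
  · rintro ⟨x, y⟩ hz
    rw [LinearMap.mem_ker] at hz
    -- downward induction
    have key : ∀ j, j ≤ p → C (((B : K →ₗ[ℂ] K) ^ (p - j)) y) = 0 ∧
        ((A : H →ₗ[ℂ] H) ^ (j + 1)) ((opM A B C ^ (p - j)) (x, y)).1 = 0 := by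
      intro j
      induction j with
      | zero =>
        intro _
        have h1 := opM_pow_fst A B C p (x, y)
        rw [hz] at h1
        have h2 : C (((B : K →ₗ[ℂ] K) ^ p) y) = 0 := by
          apply C_eq_zero hC
          have h3 : C (((B : K →ₗ[ℂ] K) ^ p) y) = A (-((opM A B C ^ p) (x, y)).1) := by
            rw [map_neg]
            exact (neg_eq_of_add_eq_zero_right h1.symm).symm
          rw [h3]
          exact Submodule.mem_sup_left ⟨_, rfl⟩
        refine ⟨h2, ?_⟩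
        rw [h2, add_zero] at h1
        rw [zero_add, pow_one, Nat.sub_zero]
        exact h1.symm
      | succ j ih =>
        intro hj
        obtain ⟨-, h1⟩ := ih (by omega)
        have h2 := opM_pow_fst A B C (p - (j + 1)) (x, y)
        rw [show p - (j + 1) + 1 = p - j by omega] at h2
        rw [h2] at h1
        have h3 : C (((B : K →ₗ[ℂ] K) ^ (p - (j + 1))) y) = 0 := by
          apply C_eq_zero hC
          have h4 : C (((B : K →ₗ[ℂ] K) ^ (p - (j + 1))) y) =
              A (-((opM A B C ^ (p - (j + 1))) (x, y)).1) + (A ((opM A B C ^ (p - (j + 1))) (x, y)).1 +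
                C (((B : K →ₗ[ℂ] K) ^ (p - (j + 1))) y)) := by
            rw [map_neg]
            abel
          rw [h4]
          apply Submodule.add_mem
          · exact Submodule.mem_sup_left ⟨_, rfl⟩
          · exact ker_pow_le (j + 1) hj h1
        refine ⟨h3, ?_⟩
        rw [h3, add_zero] at h1
        rw [pow_succ, Module.End.mul_apply]
        exact h1
    have hC0 : ∀ i ≤ p, C (((B : K →ₗ[ℂ] K) ^ i) y) = 0 := by
      intro i hi
      have := (key (p - i) (by omega)).1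
      rwa [show p - (p - i) = i by omega] at this
    have hx : ((A : H →ₗ[ℂ] H) ^ (p + 1)) x = 0 := by
      have := (key p le_rfl).2
      rwa [Nat.sub_self] at this
    have hx2 : ((A : H →ₗ[ℂ] H) ^ p) x = 0 := by
      have : x ∈ LinearMap.ker ((A : H →ₗ[ℂ] H) ^ (p + 1)) := hx
      rw [hA] at this
      exact this
    rw [LinearMap.mem_ker]
    have h1 : ((opM A B C ^ p) (x, y)).1 = 0 := by
      rw [opM_pow_fst_of_zero A B C p (x, y) (fun i hi => hC0 i hi.le)]
      exact hx2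
    have h2 : ((opM A B C ^ p) (x, y)).2 = 0 := by
      rw [opM_pow_snd]
      have h3 : ((B : K →ₗ[ℂ] K) ^ (p + 1)) y = 0 := by
        have := opM_pow_snd A B C (p + 1) (x, y)
        rw [hz] at this
        exact this.symm
      have h4 : ((B : K →ₗ[ℂ] K) ^ p) y ∈ spT B p := by
        apply Submodule.le_topologicalClosure
        refine ⟨?_, ⟨y, rfl⟩⟩
        rw [pow_succ', Module.End.mul_apply] at h3
        exact h3
      obtain ⟨J, hJ, -⟩ := hC
      have h5 := hC0 p le_rfl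
      rw [hJ ⟨_, h4⟩] at h5
      have h6 : J ⟨_, h4⟩ = 0 := Subtype.ext h5
      have h7 := (map_eq_zero_iff J J.injective).mp h6
      exact congrArg Subtype.val h7
    exact Prod.ext h1 h2
  · intro z hz
    rw [LinearMap.mem_ker] at hz ⊢
    rw [pow_succ', Module.End.mul_apply, hz, map_zero]

theorem dsc_opM (hp : 1 ≤ p) (hB : dsc (B : K →ₗ[ℂ] K) ≤ p)
    (hBc : IsClosed (LinearMap.range ((B : K →ₗ[ℂ] K) ^ p) : Set K))
    (hS : IsClosed (spS A p : Set H)) (hC : Admissible A B p C) : dsc (opM A B C) ≤ p := by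
  have : CompleteSpace (spS A p) := hS.completeSpace_coe
  have : CompleteSpace (spT B p) := (Submodule.isClosed_topologicalClosure _).completeSpace_coe
  have hT : spT B p = LinearMap.ker (B : K →ₗ[ℂ] K) ⊓ LinearMap.range ((B : K →ₗ[ℂ] K) ^ p) := by
    apply IsClosed.submodule_topologicalClosure_eq
    exact B.isClosed_ker.inter hBc
  rw [dsc_le_iff] at hB ⊢
  obtain ⟨J, hJ, h0⟩ := hC
  set W : Submodule ℂ (H × K) := LinearMap.range (opM A B C) ⊔ LinearMap.ker (opM A B C ^ p) with hW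
  -- step 1
  have step1 : ∀ x : H, ((x, 0) : H × K) ∈ W := by
    intro x
    obtain ⟨s, hs, s', hs', rfl⟩ := (spS A p).exists_add_mem_mem_orthogonal x
    obtain ⟨u, ⟨a, rfl⟩, n, hn, rfl⟩ := Submodule.mem_sup.mp hs
    set t := J.symm ⟨s', hs'⟩ with ht
    have h1 : opM A B C (a, t) = (A a + s', 0) := by
      rw [opM_apply, hJ t, ht, J.apply_symm_apply]
      have : B (t : K) = 0 := spT_le_ker t.2
      rw [← ht, this]
    have h2 : ((n, 0) : H × K) ∈ LinearMap.ker (opM A B C ^ p) := by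
      rw [LinearMap.mem_ker]
      apply Prod.ext
      · rw [opM_pow_fst_of_zero A B C p (n, 0) (fun i _ => by rw [map_zero, map_zero])]
        exact hn
      · rw [opM_pow_snd, map_zero]
        rfl
    have h3 : (((A : H →ₗ[ℂ] H) a + n + s', 0) : H × K) = opM A B C (a, t) + (n, 0) := by
      rw [h1]
      simp only [Prod.mk_add_mk, add_zero, Prod.mk.injEq, and_true, ContinuousLinearMap.coe_coe]
      abel
    rw [h3]
    exact Submodule.add_mem _ (Submodule.mem_sup_left ⟨_, rfl⟩) (Submodule.mem_sup_right h2)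
  -- step 2
  have step2 : ∀ y : K, ((0, B y) : H × K) ∈ W := by
    intro y
    have h1 : ((0, B y) : H × K) = opM A B C (0, y) - (C y, 0) := by
      rw [opM_apply]
      simp
    rw [h1]
    exact Submodule.sub_mem _ (Submodule.mem_sup_left ⟨_, rfl⟩) (step1 _)
  -- step 3
  have step3 : ∀ j, j ≤ p → ∀ y : K, ((B : K →ₗ[ℂ] K) ^ p) y = 0 → ∃ y' z : K,
      ((B : K →ₗ[ℂ] K) ^ p) y' = 0 ∧ y = y' + B z ∧
        ∀ i, p - j ≤ i → i < p → C (((B : K →ₗ[ℂ] K) ^ i) y') = 0 := by
    intro j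
    induction j with
    | zero =>
      intro _ y hy
      exact ⟨y, 0, hy, by simp, fun i hi hi' => absurd hi' (by omega)⟩
    | succ j ih =>
      intro hj y hy
      obtain ⟨y', z, hy', hyz, hCi⟩ := ih (by omega) y hy
      set q := p - (j + 1) with hq
      obtain ⟨t, ht, u, hu, htu⟩ :=
        (spT B p).exists_add_mem_mem_orthogonal (((B : K →ₗ[ℂ] K) ^ q) y')
      have ht' := ht
      rw [hT] at ht'
      obtain ⟨htB, ⟨r, hr⟩⟩ := ht'
      have hBt : (B : K →ₗ[ℂ] K) t = 0 := htB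
      -- y'' = y' - B ^ (p - q) r, p - q = j + 1
      have hpow : ∀ i, q < i → ((B : K →ₗ[ℂ] K) ^ i) (((B : K →ₗ[ℂ] K) ^ (j + 1)) r) = 0 := by
        intro i hi
        rw [← Module.End.mul_apply, ← pow_add]
        rw [show i + (j + 1) = (i - q - 1) + 1 + p by omega, pow_add, Module.End.mul_apply, hr,
          pow_succ, Module.End.mul_apply, hBt, map_zero]
      refine ⟨y' - ((B : K →ₗ[ℂ] K) ^ (j + 1)) r, z + ((B : K →ₗ[ℂ] K) ^ j) r, ?_, ?_, ?_⟩
      · rw [map_sub, hy', hpow p (by omega), sub_zero]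
      · rw [hyz, map_add, pow_succ', Module.End.mul_apply]
        simp only [ContinuousLinearMap.coe_coe]
        abel
      · intro i hi hip
        rcases Nat.eq_or_lt_of_le hi with h | h
        · rw [← h, map_sub, ← Module.End.mul_apply, ← pow_add,
            show q + (j + 1) = p by omega, hr, htu, add_sub_cancel_left]
          exact h0 u hu
        · rw [map_sub, hpow i h, sub_zero]
          exact hCi i (by omega) hip
  -- step 4
  have step4 : ∀ y : K, ((0, y) : H × K) ∈ W := by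
    intro y
    have h1 : ((B : K →ₗ[ℂ] K) ^ p) y ∈ LinearMap.range ((B : K →ₗ[ℂ] K) ^ (p + 1)) := by
      rw [hB]
      exact ⟨y, rfl⟩
    obtain ⟨v, hv⟩ := h1
    have h2 : ((B : K →ₗ[ℂ] K) ^ p) (y - B v) = 0 := by
      rw [map_sub, ← hv, pow_succ, Module.End.mul_apply]
      simp
    obtain ⟨y', z, hy', hyz, hCi⟩ := step3 p le_rfl (y - B v) h2
    have h3 : ((0, y') : H × K) ∈ LinearMap.ker (opM A B C ^ p) := by
      rw [LinearMap.mem_ker]
      apply Prod.ext
      · rw [opM_pow_fst_of_zero A B C p (0, y') (fun i hi => hCi i (by omega) hi), map_zero]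
        rfl
      · rw [opM_pow_snd]
        exact hy'
    have h4 : ((0, y) : H × K) = (0, y') + (0, B z) + (0, B v) := by
      have : y = y' + B z + B v := by rw [← hyz]; abel
      conv_lhs => rw [this]
      simp
    rw [h4]
    exact Submodule.add_mem _ (Submodule.add_mem _ (Submodule.mem_sup_right h3) (step2 z)) (step2 v)
  apply le_antisymm
  · rintro _ ⟨z, rfl⟩
    rw [pow_succ, Module.End.mul_apply]
    exact ⟨_, rfl⟩
  · rintro _ ⟨⟨x, y⟩, rfl⟩
    have h1 : ((x, y) : H × K) ∈ W := by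
      have : ((x, y) : H × K) = (x, 0) + (0, y) := by simp
      rw [this]
      exact Submodule.add_mem _ (step1 x) (step4 y)
    obtain ⟨a, ⟨b, rfl⟩, c, hc, habc⟩ := Submodule.mem_sup.mp h1
    refine ⟨b, ?_⟩
    rw [LinearMap.mem_ker] at hc
    rw [← habc, map_add, hc, add_zero, pow_succ, Module.End.mul_apply]

theorem drazin_opM (hA : asc (A : H →ₗ[ℂ] H) ≤ p) (hp : 1 ≤ p) (hB : dsc (B : K →ₗ[ℂ] K) ≤ p)
    (hBr : RightDrazin B) (hE : CondE A B p) (hC : Admissible A B p C) : Drazin (opM A B C) := by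
  refine ⟨lt_of_le_of_lt (asc_opM hA hC) (ENat.natCast_lt_top p), ?_⟩
  refine lt_of_le_of_lt (dsc_opM hp hB ?_ hE.1 hC) (ENat.natCast_lt_top p)
  obtain ⟨h1, h2⟩ := hBr
  obtain ⟨n, hn⟩ := ENat.ne_top_iff_exists.mp h1.ne
  rw [← hn, ENat.toNat_natCast] at h2
  have h3 := (dsc_le_iff (B : K →ₗ[ℂ] K) n).mp hn.symm.le
  have h4 : n ≤ p := by
    rw [← hn] at hB
    exact_mod_cast hB
  rw [range_stable _ n h3 p h4]
  exact h2

end Q2

/-! ### Q1: the counterexample -/

section Q1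

/-- the Hilbert space `ℓ²(ℕ × ℕ)` -/
noncomputable abbrev L2 := lp (fun _ : ℕ × ℕ => ℂ) 2

/-- `(m, i) ↦ (m, i + 1)` -/
def shift (j : ℕ × ℕ) : ℕ × ℕ := (j.1, j.2 + 1)

theorem shift_inj : Function.Injective shift := by
  rintro ⟨a, b⟩ ⟨c, d⟩ h
  simp only [shift, Prod.mk.injEq, Nat.add_right_cancel_iff] at h
  exact Prod.ext h.1 h.2

theorem sum_bound (w : ℕ × ℕ → ℝ) (hw : ∀ j, |w j| ≤ 1) (x : L2) (s : Finset (ℕ × ℕ)) :
    ∑ j ∈ s, ‖(w j : ℂ) * x (shift j)‖ ^ (2 : ℝ≥0∞).toReal ≤ ‖x‖ ^ (2 : ℝ≥0∞).toReal := by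
  calc ∑ j ∈ s, ‖(w j : ℂ) * x (shift j)‖ ^ (2 : ℝ≥0∞).toReal
      ≤ ∑ j ∈ s, ‖x (shift j)‖ ^ (2 : ℝ≥0∞).toReal := by
        apply sum_le_sum
        intro j _
        apply Real.rpow_le_rpow (norm_nonneg _) _ (by simp)
        rw [norm_mul, Complex.norm_real]
        calc |w j| * ‖x (shift j)‖ ≤ 1 * ‖x (shift j)‖ :=
              mul_le_mul_of_nonneg_right (hw j) (norm_nonneg _)
          _ = _ := one_mul _
    _ = ∑ i ∈ s.image shift, ‖x i‖ ^ (2 : ℝ≥0∞).toReal := by
        rw [sum_image (fun _ _ _ _ h => shift_inj h)]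
    _ ≤ _ := lp.sum_rpow_le_norm_rpow (by simp) x _

/-- the weighted backward shift `(W x)(m, i) = w(m, i) x(m, i + 1)` -/
noncomputable def W (w : ℕ × ℕ → ℝ) (hw : ∀ j, |w j| ≤ 1) : L2 →L[ℂ] L2 :=
  LinearMap.mkContinuous
    { toFun := fun x => (⟨fun j => (w j : ℂ) * x (shift j), memℓp_gen' (sum_bound w hw x)⟩ : L2)
      map_add' := fun x y => by
        apply lp.ext
        funext j
        show (w j : ℂ) * (x + y) (shift j) = (w j : ℂ) * x (shift j) + (w j : ℂ) * y (shift j)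
        rw [lp.coeFn_add, Pi.add_apply, mul_add]
      map_smul' := fun c x => by
        apply lp.ext
        funext j
        show (w j : ℂ) * (c • x) (shift j) = c * ((w j : ℂ) * x (shift j))
        rw [lp.coeFn_smul, Pi.smul_apply, smul_eq_mul]
        ring } 1
    (fun x => by
      apply lp.norm_le_of_forall_sum_le (by simp) (by positivity)
      intro s
      rw [one_mul]
      exact sum_bound w hw x s)

theorem W_apply (w : ℕ × ℕ → ℝ) (hw : ∀ j, |w j| ≤ 1) (x : L2) (j : ℕ × ℕ) :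
    W w hw x j = (w j : ℂ) * x (shift j) := rfl

/-- unit vectors -/
noncomputable def e (j : ℕ × ℕ) : L2 := lp.single 2 j (1 : ℂ)

theorem e_apply (i j : ℕ × ℕ) : e i j = if j = i then 1 else 0 := by
  unfold e
  rw [lp.single_apply, Pi.single_apply]

theorem inner_e (j : ℕ × ℕ) (x : L2) : inner ℂ (e j) x = x j := by
  unfold e
  rw [lp.inner_single_left]
  simp

theorem one_le_one' : ∀ j : ℕ × ℕ, |(fun _ : ℕ × ℕ => (1 : ℝ)) j| ≤ 1 := fun _ => by simp

/-- the backward shift -/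
noncomputable def S : L2 →L[ℂ] L2 := W (fun _ => 1) one_le_one'

theorem S_apply (x : L2) (j : ℕ × ℕ) : S x j = x (shift j) := by
  unfold S
  rw [W_apply]
  simp

theorem S_e_shift (j : ℕ × ℕ) : S (e (shift j)) = e j := by
  apply lp.ext
  funext i
  rw [S_apply, e_apply, e_apply]
  by_cases h : i = j
  · rw [if_pos h, if_pos (by rw [h])]
  · rw [if_neg h, if_neg (fun h' => h (shift_inj h'))]

theorem S_e_zero (m : ℕ) : S (e (m, 0)) = 0 := by
  apply lp.ext
  funext i
  rw [S_apply, e_apply, if_neg]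
  · rfl
  · intro h
    have := congrArg Prod.snd h
    simp [shift] at this

/-- the forward shift -/
noncomputable def A : L2 →L[ℂ] L2 := ContinuousLinearMap.adjoint S

theorem A_shift (x : L2) (j : ℕ × ℕ) : A x (shift j) = x j := by
  rw [← inner_e, A, ContinuousLinearMap.adjoint_inner_right, S_e_shift, inner_e]

theorem A_zero (x : L2) (m : ℕ) : A x (m, 0) = 0 := by
  rw [← inner_e, A, ContinuousLinearMap.adjoint_inner_right, S_e_zero, inner_zero_left]

theorem S_A (x : L2) : S (A x) = x := by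
  apply lp.ext
  funext j
  rw [S_apply, A_shift]

theorem A_injective : Function.Injective A := by
  intro x y h
  rw [← S_A x, ← S_A y, h]

theorem A_closed : IsClosed (LinearMap.range (A : L2 →ₗ[ℂ] L2) : Set L2) := by
  have : (LinearMap.range (A : L2 →ₗ[ℂ] L2) : Set L2) = {x | A (S x) = x} := by
    ext x
    constructor
    · rintro ⟨y, rfl⟩
      show A (S (A y)) = A y
      rw [S_A]
    · intro h
      exact ⟨S x, h⟩
  rw [this]
  exact isClosed_eq (A.continuous.comp S.continuous) continuous_id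

/-- the weights of `B` -/
noncomputable def wB (j : ℕ × ℕ) : ℝ := if j.2 = 0 then 1 / (j.1 + 1) else 1

theorem wB_pos (j : ℕ × ℕ) : 0 < wB j := by
  unfold wB
  split_ifs
  · positivity
  · exact one_pos

theorem wB_le (j : ℕ × ℕ) : |wB j| ≤ 1 := by
  rw [abs_of_pos (wB_pos j)]
  unfold wB
  split_ifs
  · rw [div_le_one (by positivity)]
    have : (0 : ℝ) ≤ j.1 := Nat.cast_nonneg _
    linarith
  · exact le_rfl

/-- the operator `B` -/
noncomputable def B : L2 →L[ℂ] L2 := W wB wB_le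

theorem B_apply (x : L2) (j : ℕ × ℕ) : B x j = (wB j : ℂ) * x (shift j) := rfl

/-- the orthogonal complement of the range of `A` -/
noncomputable def Z : Submodule ℂ L2 := (LinearMap.range (A : L2 →ₗ[ℂ] L2))ᗮ

theorem mem_Z (x : L2) : x ∈ Z ↔ ∀ j, x (shift j) = 0 := by
  have h1 : x ∈ Z ↔ S x = 0 := by
    constructor
    · intro h
      rw [Z, Submodule.mem_orthogonal] at h
      have h2 := h (A (S x)) ⟨S x, rfl⟩
      rw [A, ContinuousLinearMap.adjoint_inner_left] at h2
      exact inner_self_eq_zero.mp h2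
    · intro h
      rw [Z, Submodule.mem_orthogonal]
      rintro _ ⟨y, rfl⟩
      show inner ℂ (A y) x = 0
      rw [A, ContinuousLinearMap.adjoint_inner_left, h, inner_zero_right]
  rw [h1]
  constructor
  · intro h j
    rw [← S_apply, h]
    rfl
  · intro h
    apply lp.ext
    funext j
    rw [S_apply, h j]
    rfl

theorem mem_ker_B (x : L2) : x ∈ LinearMap.ker (B : L2 →ₗ[ℂ] L2) ↔ x ∈ Z := by
  rw [mem_Z]
  constructor
  · intro h j
    have h1 : B x j = 0 := by
      have : B x = 0 := h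
      rw [this]
      rfl
    rw [B_apply] at h1
    rcases mul_eq_zero.mp h1 with h2 | h2
    · exact absurd (Complex.ofReal_eq_zero.mp h2) (wB_pos j).ne'
    · exact h2
  · intro h
    show B x = 0
    apply lp.ext
    funext j
    rw [B_apply, h j, mul_zero]
    rfl

theorem ker_B : LinearMap.ker (B : L2 →ₗ[ℂ] L2) = Z := Submodule.ext mem_ker_B

theorem e_mem_Z (m : ℕ) : e (m, 0) ∈ Z := by
  rw [mem_Z]
  intro j
  rw [e_apply, if_neg]
  intro h
  have := congrArg Prod.snd h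
  simp [shift] at this

theorem e_mem_range (m : ℕ) : e (m, 0) ∈ LinearMap.range (B : L2 →ₗ[ℂ] L2) := by
  refine ⟨((m : ℂ) + 1) • e (m, 1), ?_⟩
  show B (((m : ℂ) + 1) • e (m, 1)) = e (m, 0)
  apply lp.ext
  funext j
  rw [B_apply, lp.coeFn_smul, Pi.smul_apply, smul_eq_mul, e_apply, e_apply]
  by_cases h : j = (m, 0)
  · subst h
    rw [if_pos (by rfl), if_pos rfl]
    unfold wB
    rw [if_pos rfl]
    have : ((m : ℂ) + 1) ≠ 0 := by exact_mod_cast Nat.succ_ne_zero m
    push_cast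
    field_simp
  · rw [if_neg h, if_neg]
    · simp
    · intro h'
      apply h
      apply shift_inj
      rw [h']
      rfl

theorem spT_B : spT B 1 = Z := by
  apply le_antisymm
  · refine le_trans spT_le_ker ?_
    rw [ker_B]
  · intro x hx
    have h1 := lp.hasSum_single (p := 2) (by norm_num) x
    have hcl : IsClosed (spT B 1 : Set L2) := Submodule.isClosed_topologicalClosure _
    refine hcl.mem_of_tendsto h1 (Filter.Eventually.of_forall fun s => ?_)
    apply Submodule.sum_mem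
    rintro ⟨m, i⟩ _
    rcases i with _ | i
    · have h2 : lp.single 2 (m, 0) (x (m, 0)) = (x (m, 0)) • e (m, 0) := by
        unfold e
        rw [← lp.single_smul]
        simp
      rw [h2]
      apply Submodule.smul_mem
      apply Submodule.le_topologicalClosure
      refine ⟨?_, ?_⟩
      · show e (m, 0) ∈ LinearMap.ker (B : L2 →ₗ[ℂ] L2)
        rw [ker_B]
        exact e_mem_Z m
      · rw [pow_one]
        exact e_mem_range m
    · have h2 : x (m, i + 1) = 0 := (mem_Z x).mp hx (m, i)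
      rw [h2]
      simp

theorem spS_A : spS A 1 = LinearMap.range (A : L2 →ₗ[ℂ] L2) := by
  unfold spS
  rw [pow_one, LinearMap.ker_eq_bot.mpr A_injective, sup_bot_eq]

/-- the operator `C` -/
noncomputable def C : L2 →L[ℂ] L2 :=
  haveI : CompleteSpace Z := (Submodule.isClosed_orthogonal _).completeSpace_coe
  Z.starProjection

theorem C_of_mem (x : L2) (hx : x ∈ Z) : C x = x := by
  have : CompleteSpace Z := (Submodule.isClosed_orthogonal _).completeSpace_coe
  exact Submodule.starProjection_eq_self_iff.mpr hx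

theorem C_of_orth (x : L2) (hx : x ∈ Zᗮ) : C x = 0 := by
  have : CompleteSpace Z := (Submodule.isClosed_orthogonal _).completeSpace_coe
  exact (Submodule.starProjection_apply_eq_zero_iff _).mpr hx

theorem admissible : Admissible A B 1 C := by
  have h1 : spT B 1 = (spS A 1)ᗮ := by
    rw [spT_B, spS_A]
    rfl
  refine ⟨ContinuousLinearEquiv.ofEq _ _ h1, ?_, ?_⟩
  · intro y
    have hy : (y : L2) ∈ Z := by
      rw [← spT_B]
      exact y.2
    rw [C_of_mem _ hy]
    rfl
  · intro y hy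
    rw [spT_B] at hy
    exact C_of_orth y hy

theorem dsc_B : dsc (B : L2 →ₗ[ℂ] L2) ≤ (1 : ℕ) := by
  rw [dsc_le_iff]
  apply le_antisymm
  · rintro _ ⟨x, rfl⟩
    exact ⟨B x, rfl⟩
  · rintro _ ⟨x, rfl⟩
    refine ⟨A x, ?_⟩
    rw [pow_one]
    show B (B (A x)) = B x
    apply lp.ext
    funext j
    rw [B_apply, B_apply, B_apply, A_shift]
    have : wB (shift j) = 1 := by
      unfold wB shift
      rw [if_neg (by simp)]
    rw [this]
    simp

theorem asc_A : asc (A : L2 →ₗ[ℂ] L2) = 0 := by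
  apply le_antisymm _ (zero_le)
  have h : asc (A : L2 →ₗ[ℂ] L2) ≤ (0 : ℕ) := by
    rw [asc_le_iff, pow_zero, zero_add, pow_one, LinearMap.ker_eq_bot.mpr A_injective]
    symm
    rw [LinearMap.ker_eq_bot]
    exact fun _ _ h => h
  exact_mod_cast h

theorem leftDrazin_A : LeftDrazin A := by
  refine ⟨by rw [asc_A]; exact ENat.natCast_lt_top 0, ?_⟩
  rw [asc_A]
  simpa using A_closed

/-- the kernel of `W - μ` is infinite dimensional -/
theorem dim_ker (a : ℕ → ℝ) (ha : ∀ m, a m ≠ 0) (hw : ∀ j : ℕ × ℕ, |if j.2 = 0 then a j.1 else 1| ≤ 1)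
    (μ : ℂ) (hμ : ‖μ‖ < 1) :
    dim (LinearMap.ker ((W (fun j => if j.2 = 0 then a j.1 else 1) hw -
      μ • ContinuousLinearMap.id ℂ L2 : L2 →L[ℂ] L2) : L2 →ₗ[ℂ] L2)) = ⊤ := by
  set w : ℕ × ℕ → ℝ := fun j => if j.2 = 0 then a j.1 else 1 with hwdef
  have hsum : ∀ m, Memℓp (fun j : ℕ × ℕ => if j.1 = m then μ ^ j.2 * (w j : ℂ) else 0) 2 := by
    intro m
    apply memℓp_gen
    have h1 : Summable (fun i : ℕ => ‖μ ^ i * (w (m, i) : ℂ)‖ ^ (2 : ℝ≥0∞).toReal) := by
      have h2 : Summable (fun i : ℕ => (‖μ‖ ^ 2) ^ i) :=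
        summable_geometric_of_lt_one (by positivity) (by nlinarith [norm_nonneg μ])
      refine Summable.of_nonneg_of_le (fun i => by positivity) (fun i => ?_) h2
      rw [ENNReal.toReal_ofNat, Real.rpow_ofNat, norm_mul, norm_pow, Complex.norm_real, ← pow_mul,
        mul_comm 2 i, pow_mul, mul_pow]
      have h3 : ‖w (m, i)‖ ^ 2 ≤ 1 := by
        have := hw (m, i)
        rw [Real.norm_eq_abs]
        exact pow_le_one₀ (abs_nonneg _) this
      calc (‖μ‖ ^ i) ^ 2 * ‖w (m, i)‖ ^ 2 ≤ (‖μ‖ ^ i) ^ 2 * 1 :=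
            mul_le_mul_of_nonneg_left h3 (by positivity)
        _ = _ := mul_one _
    have hinj : Function.Injective (fun i : ℕ => ((m, i) : ℕ × ℕ)) := by
      intro i j h
      exact (Prod.mk.inj h).2
    rw [← hinj.summable_iff]
    · refine h1.congr (fun i => ?_)
      simp
    · rintro ⟨m', i⟩ hj
      have : m' ≠ m := by
        rintro rfl
        exact hj ⟨i, rfl⟩
      simp [this]
  let v : ℕ → L2 := fun m => ⟨_, hsum m⟩
  have hv : ∀ m j, v m j = if j.1 = m then μ ^ j.2 * (w j : ℂ) else 0 := fun m j => rfl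
  have hker : ∀ m, v m ∈ LinearMap.ker ((W w hw - μ • ContinuousLinearMap.id ℂ L2 :
      L2 →L[ℂ] L2) : L2 →ₗ[ℂ] L2) := by
    intro m
    rw [LinearMap.mem_ker]
    show W w hw (v m) - μ • v m = 0
    rw [sub_eq_zero]
    apply lp.ext
    funext j
    rw [W_apply, lp.coeFn_smul, Pi.smul_apply, smul_eq_mul, hv, hv]
    have h1 : w (shift j) = 1 := by
      simp [hwdef, shift]
    rw [h1]
    simp only [shift]
    split_ifs
    · rw [pow_succ]
      push_cast
      ring
    · simp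
  have hlin : LinearIndependent ℂ (fun m : ℕ => (⟨v m, hker m⟩ : LinearMap.ker ((W w hw -
      μ • ContinuousLinearMap.id ℂ L2 : L2 →L[ℂ] L2) : L2 →ₗ[ℂ] L2))) := by
    rw [linearIndependent_iff']
    intro s g hg m hm
    have h1 := congrArg (fun z : LinearMap.ker ((W w hw -
      μ • ContinuousLinearMap.id ℂ L2 : L2 →L[ℂ] L2) : L2 →ₗ[ℂ] L2) => (z : L2) (m, 0)) hg
    simp only at h1
    have h2 : ((∑ i ∈ s, g i • (⟨v i, hker i⟩ : LinearMap.ker ((W w hw -
      μ • ContinuousLinearMap.id ℂ L2 : L2 →L[ℂ] L2) : L2 →ₗ[ℂ] L2)) : LinearMap.ker ((W w hw -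
      μ • ContinuousLinearMap.id ℂ L2 : L2 →L[ℂ] L2) : L2 →ₗ[ℂ] L2)) : L2) (m, 0) =
        ∑ i ∈ s, g i * v i (m, 0) := by
      rw [Submodule.coe_sum, lp.coeFn_sum, Finset.sum_apply]
      apply sum_congr rfl
      intro i _
      rfl
    rw [h2, sum_eq_single m] at h1
    · rw [hv, if_pos rfl] at h1
      have h3 : ((w (m, 0) : ℝ) : ℂ) ≠ 0 := by
        have : w (m, 0) ≠ 0 := by
          simp only [hwdef, if_true]
          exact ha m
        exact_mod_cast this
      have h4 : g m * (μ ^ 0 * (w (m, 0) : ℂ)) = 0 := h1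
      rw [pow_zero, one_mul] at h4
      exact (mul_eq_zero.mp h4).resolve_right h3
    · intro i _ hi
      rw [hv, if_neg (fun h => hi h.symm), mul_zero]
    · intro h
      exact absurd hm h
  have h5 := hlin.cardinal_lift_le_rank
  unfold dim
  rw [Cardinal.toENat_eq_top]
  simpa using h5

theorem condIII : CondIII A B := by
  refine ⟨1, one_pos, fun μ _ hμ => ?_⟩
  have h1 : dim (LinearMap.ker ((B - μ • ContinuousLinearMap.id ℂ L2 : L2 →L[ℂ] L2) :
      L2 →ₗ[ℂ] L2)) = ⊤ := by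
    have h2 := dim_ker (fun m => 1 / ((m : ℝ) + 1)) (fun m => by positivity) (fun j => wB_le j) μ hμ
    exact h2
  have h3 : dim (LinearMap.range ((A - μ • ContinuousLinearMap.id ℂ L2 : L2 →L[ℂ] L2) :
      L2 →ₗ[ℂ] L2))ᗮ = ⊤ := by
    have h4 := ContinuousLinearMap.orthogonal_range (A - μ • ContinuousLinearMap.id ℂ L2)
    rw [h4]
    have h5 : ContinuousLinearMap.adjoint (A - μ • ContinuousLinearMap.id ℂ L2) =
        S - (starRingEnd ℂ) μ • ContinuousLinearMap.id ℂ L2 := by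
      rw [map_sub, A, ContinuousLinearMap.adjoint_adjoint]
      congr 1
      apply ContinuousLinearMap.ext
      intro x
      apply ext_inner_left ℂ
      intro y
      rw [ContinuousLinearMap.adjoint_inner_right]
      simp [inner_smul_left, inner_smul_right]
    rw [h5]
    have h6 := dim_ker (fun _ => 1) (fun _ => one_ne_zero) (fun j => by split_ifs <;> simp)
      ((starRingEnd ℂ) μ) (by rw [RCLike.norm_conj]; exact hμ)
    have h7 : S = W (fun j : ℕ × ℕ => if j.2 = 0 then (1 : ℝ) else 1)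
        (fun j => by split_ifs <;> simp) := by
      apply ContinuousLinearMap.ext
      intro x
      apply lp.ext
      funext j
      rw [S_apply, W_apply]
      simp
    rw [h7]
    exact h6
  rw [h1, h3]

theorem not_drazin : ¬ Drazin (opM A B C) := by
  rintro ⟨-, h⟩
  obtain ⟨k, hk⟩ := ENat.ne_top_iff_exists.mp h.ne
  have h1 := (dsc_le_iff (opM A B C) k).mp hk.symm.le
  -- injectivity
  have hinj : Function.Injective (opM A B C) := by
    rw [← LinearMap.ker_eq_bot, LinearMap.ker_eq_bot']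
    rintro ⟨x, y⟩ hxy
    rw [opM_apply] at hxy
    obtain ⟨h2, h3⟩ := Prod.mk.inj hxy
    have hy : y ∈ Z := (mem_ker_B y).mp h3
    rw [C_of_mem y hy] at h2
    have hy2 : y ∈ (LinearMap.range (A : L2 →ₗ[ℂ] L2)) := by
      refine ⟨-x, ?_⟩
      show A (-x) = y
      rw [map_neg]
      exact neg_eq_of_add_eq_zero_right h2
    have hy0 : y = 0 := by
      have h4 : y ∈ LinearMap.range (A : L2 →ₗ[ℂ] L2) ⊓ (LinearMap.range (A : L2 →ₗ[ℂ] L2))ᗮ :=
        ⟨hy2, hy⟩
      rw [Submodule.inf_orthogonal_eq_bot] at h4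
      exact h4
    subst hy0
    rw [add_zero] at h2
    have hx0 : x = 0 := A_injective (by rw [h2, map_zero])
    rw [hx0]
    rfl
  have hsurj : Function.Surjective (opM A B C) := by
    intro z
    have h2 : ((opM A B C) ^ k) z ∈ LinearMap.range ((opM A B C) ^ (k + 1)) := by
      rw [h1]
      exact ⟨z, rfl⟩
    obtain ⟨u, hu⟩ := h2
    refine ⟨u, ?_⟩
    have hinjk : Function.Injective ((opM A B C) ^ k) := by
      have : ∀ n : ℕ, Function.Injective ((opM A B C) ^ n) := by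
        intro n
        induction n with
        | zero => exact fun _ _ h => h
        | succ n ih =>
          intro a b hab
          rw [pow_succ', Module.End.mul_apply, Module.End.mul_apply] at hab
          exact ih (hinj hab)
      exact this k
    apply hinjk
    rw [← hu, pow_succ, Module.End.mul_apply]
  -- `B` is not surjective
  have hmem : Memℓp (fun j : ℕ × ℕ => if j.2 = 0 then (1 : ℂ) / (j.1 + 1) else 0) 2 := by
    apply memℓp_gen
    have hinj0 : Function.Injective (fun m : ℕ => ((m, 0) : ℕ × ℕ)) := by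
      intro i j h
      exact (Prod.mk.inj h).1
    rw [← hinj0.summable_iff]
    · have h2 : Summable (fun m : ℕ => 1 / ((m : ℝ) + 1) ^ 2) := by
        have := (summable_nat_add_iff 1).mpr (Real.summable_one_div_nat_pow.mpr one_lt_two)
        simpa using this
      refine h2.congr (fun m => ?_)
      simp only [Function.comp_apply, if_true, ENNReal.toReal_ofNat, Real.rpow_ofNat, norm_div,
        norm_one]
      have h3 : ‖(m : ℂ) + 1‖ = (m : ℝ) + 1 := by
        have : ((m : ℂ) + 1) = (((m : ℝ) + 1 : ℝ) : ℂ) := by push_cast; ring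
        rw [this, Complex.norm_real, Real.norm_of_nonneg (by positivity)]
      rw [h3, div_pow, one_pow]
    · rintro ⟨m, i⟩ hj
      have : i ≠ 0 := by
        rintro rfl
        exact hj ⟨m, rfl⟩
      simp [this]
  obtain ⟨⟨x, y⟩, hxy⟩ := hsurj ((0 : L2), (⟨_, hmem⟩ : L2))
  rw [opM_apply] at hxy
  obtain ⟨-, h3⟩ := Prod.mk.inj hxy
  have h4 : ∀ m : ℕ, y (m, 1) = 1 := by
    intro m
    have h5 : B y (m, 0) = (1 : ℂ) / (m + 1) := by
      rw [h3]
      show (if ((m, 0) : ℕ × ℕ).2 = 0 then (1 : ℂ) / (((m, 0) : ℕ × ℕ).1 + 1) else 0) = _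
      rw [if_pos rfl]
    rw [B_apply] at h5
    unfold wB at h5
    rw [if_pos rfl] at h5
    have h6 : ((m : ℂ) + 1) ≠ 0 := by exact_mod_cast Nat.succ_ne_zero m
    have h7 : ((1 / ((m : ℝ) + 1) : ℝ) : ℂ) * y (shift (m, 0)) = 1 / ((m : ℂ) + 1) := h5
    push_cast at h7
    have h8 : y (shift (m, 0)) = 1 := by
      field_simp at h7
      exact h7
    exact h8
  have h5 : Summable (fun m : ℕ => ‖y (m, 1)‖ ^ (2 : ℝ≥0∞).toReal) := by
    have h6 := (lp.memℓp y).summable (by simp)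
    have hinj1 : Function.Injective (fun m : ℕ => ((m, 1) : ℕ × ℕ)) := by
      intro i j h
      exact (Prod.mk.inj h).1
    exact h6.comp_injective hinj1
  have h6 := h5.tendsto_atTop_zero
  simp only [h4, norm_one, Real.one_rpow] at h6
  exact one_ne_zero (tendsto_nhds_unique tendsto_const_nhds h6)

theorem separable_L2 : TopologicalSpace.SeparableSpace L2 := by
  rw [← TopologicalSpace.isSeparable_univ_iff]
  have h1 : TopologicalSpace.IsSeparable (Submodule.span ℂ (Set.range e) : Set L2) :=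
    (Set.countable_range e).isSeparable.span
  refine h1.closure.mono (fun x _ => ?_)
  have h2 := lp.hasSum_single (p := 2) (by norm_num) x
  refine mem_closure_of_tendsto h2 (Filter.Eventually.of_forall fun s => ?_)
  apply Submodule.sum_mem
  intro j _
  have h3 : lp.single 2 j (x j) = (x j) • e j := by
    unfold e
    rw [← lp.single_smul]
    simp
  rw [h3]
  exact Submodule.smul_mem _ _ (Submodule.subset_span ⟨j, rfl⟩)

theorem infinite_L2 : ¬ FiniteDimensional ℂ L2 := by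
  intro h
  have h1 : Function.Surjective (A : L2 →ₗ[ℂ] L2) :=
    LinearMap.injective_iff_surjective.mp A_injective
  obtain ⟨x, hx⟩ := h1 (e (0, 0))
  have h2 := A_zero x 0
  have h3 : A x = e (0, 0) := hx
  rw [h3, e_apply, if_pos rfl] at h2
  exact one_ne_zero h2

end Q1

/-- Q1 fails (with `H = K = ℓ²(ℕ × ℕ)` and `p = 1`), Q2 holds. -/
theorem result :
    FailsQ1 L2 L2 ∧
    ∀ (H : Type*) (K : Type*) [NormedAddCommGroup H] [InnerProductSpace ℂ H] [CompleteSpace H]
      [NormedAddCommGroup K] [InnerProductSpace ℂ K] [CompleteSpace K], HoldsQ2 H K := by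
  constructor
  · refine ⟨⟨separable_L2, infinite_L2⟩, ⟨separable_L2, infinite_L2⟩, A, B, C, 1, ⟨leftDrazin_A,
      lt_of_le_of_lt dsc_B (ENat.natCast_lt_top 1), condIII, ⟨le_rfl, ?_, dsc_B⟩, ⟨?_, ?_⟩,
      admissible⟩, not_drazin⟩
    · rw [asc_A]
      exact zero_le
    · rw [spS_A]
      exact A_closed
    · rw [spT_B, spS_A]
      rfl
  · rintro H K _ _ _ _ _ _ A B C p ⟨_, hB, _, ⟨hp, hA, hBp⟩, hE, hC⟩
    exact drazin_opM hA hp hBp hB hE hC

end Pool.Agent.Results.MP_632fda_an.DrazinCompletions
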